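import Pool.Agent.MP_fcd29e_an.H11.CS

/-!
No base points for the sections of the positive bundle.
-/

set_option autoImplicit false

open Complex Set Filter Topology Metric Pool.Agent.MP_fcd29e_an.H11
open scoped ComplexConjugate

namespace Pool.Agent.MP_fcd29e_an.H87

namespace Cnv

variable {ι : Type} [Fintype ι]

lemma nsq_comb (ξ w : ι → ℂ) (hw : nsq w = 1) (s q : ℂ) :
    nsq (fun k => s * ξ k + q * w k) =
      ‖s * ip ξ w + q‖ ^ 2 + ‖s‖ ^ 2 * (nsq ξ - ‖ip ξ w‖ ^ 2) := by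
  have h1 : ∀ k, ‖s * ξ k + q * w k‖ ^ 2 = ‖s‖ ^ 2 * ‖ξ k‖ ^ 2 + ‖q‖ ^ 2 * ‖w k‖ ^ 2 +
      2 * (s * conj q * (ξ k * conj (w k))).re := by
    intro k
    simp only [Complex.sq_norm, Complex.normSq_add, Complex.normSq_mul, map_mul]
    congr 2
    ring_nf
  have h2 : ‖s * ip ξ w + q‖ ^ 2 = ‖s‖ ^ 2 * ‖ip ξ w‖ ^ 2 + ‖q‖ ^ 2 +
      2 * (s * conj q * ip ξ w).re := by
    simp only [Complex.sq_norm, Complex.normSq_add, Complex.normSq_mul]
    congr 2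
    ring_nf
  have h3 : (s * conj q * ip ξ w).re = ∑ k, (s * conj q * (ξ k * conj (w k))).re := by
    rw [ip, Finset.mul_sum, Complex.re_sum]
  rw [h2, h3]
  unfold nsq at hw ⊢
  simp only [h1, Finset.sum_add_distrib, ← Finset.mul_sum, hw]
  ring

lemma nsq_conj (p : ι → ℂ) : nsq (fun k => conj (p k)) = nsq p := by
  simp [nsq]

lemma ip_conj (p w : ι → ℂ) : ip (fun k => conj (p k)) (fun k => conj (w k)) = conj (ip p w) := by
  simp [ip, map_sum]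

lemma nsq_comb' (ξ w : ι → ℂ) (hw : nsq w = 1) (s q : ℂ) :
    nsq (fun k => s * conj (ξ k) + q * conj (w k)) =
      ‖s * conj (ip ξ w) + q‖ ^ 2 + ‖s‖ ^ 2 * (nsq ξ - ‖ip ξ w‖ ^ 2) := by
  have := nsq_comb (fun k => conj (ξ k)) (fun k => conj (w k)) (by rw [nsq_conj, hw]) s q
  rw [this, ip_conj, nsq_conj, Complex.norm_conj]

lemma null_bd (hGR : SGR) (y : V ι) (K : ℝ) (hK : 1 ≤ K) (hy : B y y = 0)
    (h : nsq y.2.1 ≤ K * nsq y.2.2) : ‖y‖ ^ 2 ≤ K * nsq y.2.2 := by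
  have hp := hGR.nrm ι y.2.1 y.2.1
  have hm := hGR.nrm ι y.2.2 y.2.2
  have hm1 : nsq y.2.2 ≤ K * nsq y.2.2 := by nlinarith [hm.1]
  have h0 : ‖y.1‖ ^ 2 ≤ K * nsq y.2.2 := by
    have e : y.1 * y.1 = ∑ k, y.2.1 k * y.2.2 k := by
      unfold B at hy
      have : ∑ k, (y.2.1 k * y.2.2 k + y.2.2 k * y.2.1 k) = 2 * ∑ k, y.2.1 k * y.2.2 k := by
        rw [Finset.mul_sum]; exact Finset.sum_congr rfl fun k _ => by ring
      rw [this] at hy
      linear_combination -hy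
    have e2 : ‖y.1‖ ^ 2 ≤ (nsq y.2.1 + nsq y.2.2) / 2 := by
      rw [sq, ← norm_mul, e]
      refine (norm_sum_le _ _).trans ?_
      unfold nsq
      rw [← Finset.sum_add_distrib, Finset.sum_div]
      refine Finset.sum_le_sum fun k _ => ?_
      rw [norm_mul]
      nlinarith [sq_nonneg (‖y.2.1 k‖ - ‖y.2.2 k‖)]
    linarith
  have h1 : ‖y.2.1‖ ^ 2 ≤ K * nsq y.2.2 := hp.2.1.trans h
  have h2 : ‖y.2.2‖ ^ 2 ≤ K * nsq y.2.2 := hm.2.1.trans hm1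
  rw [Prod.norm_def, Prod.norm_def]
  rcases max_choice ‖y.1‖ (max ‖y.2.1‖ ‖y.2.2‖) with e | e
  · rw [e]; exact h0
  · rw [e]
    rcases max_choice ‖y.2.1‖ ‖y.2.2‖ with e' | e'
    · rw [e']; exact h1
    · rw [e']; exact h2

lemma pert (hGR : SGR) (G : EV ι) (y : V ι) (ε K : ℝ) (hG : ‖G - 1‖ ≤ ε) (hK0 : 0 ≤ K)
    (hK : ‖y‖ ^ 2 ≤ K * nsq y.2.2) (hy : y ≠ 0) (hε : Fintype.card ι * ε ^ 2 * K < 1) :
    (G y).2.2 ≠ 0 := by
  intro h0
  have hm := hGR.nrm ι y.2.2 y.2.2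
  have e : y.2.2 = -((G - 1) y).2.2 := by simp [h0]
  have hε0 : 0 ≤ ε := (norm_nonneg _).trans hG
  have h1 : ‖y.2.2‖ ≤ ε * ‖y‖ := by
    rw [e, norm_neg]
    calc ‖((G - 1) y).2.2‖ ≤ ‖((G - 1) y).2‖ := norm_snd_le _
      _ ≤ ‖(G - 1) y‖ := norm_snd_le _
      _ ≤ ‖G - 1‖ * ‖y‖ := (G - 1).le_opNorm y
      _ ≤ ε * ‖y‖ := by gcongr
  have h2 : ‖y.2.2‖ ^ 2 ≤ (ε * ‖y‖) ^ 2 := by gcongr
  have hy' : 0 < ‖y‖ ^ 2 := by have := norm_pos_iff.2 hy; positivity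
  have hc : (0 : ℝ) ≤ Fintype.card ι := Nat.cast_nonneg _
  have h3 : nsq y.2.2 ≤ Fintype.card ι * (ε * ‖y‖) ^ 2 :=
    hm.2.2.1.trans (mul_le_mul_of_nonneg_left h2 hc)
  have h4 : ‖y‖ ^ 2 ≤ (Fintype.card ι * ε ^ 2 * K) * ‖y‖ ^ 2 := by
    calc ‖y‖ ^ 2 ≤ K * nsq y.2.2 := hK
      _ ≤ K * (Fintype.card ι * (ε * ‖y‖) ^ 2) := mul_le_mul_of_nonneg_left h3 hK0
      _ = _ := by ring
  nlinarith

lemma real_ineq (c S t P E R : ℝ) (hcS : c ^ 2 - S ^ 2 = 1) (hc : 0 < c) (hS : 0 ≤ S)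
    (ht0 : 0 ≤ t) (ht : t ≤ 1) (hR : -((2 * P + E) * (t * P)) ≤ R) :
    -(S ^ 2 * (c + S) * t ^ 2 * E ^ 2) ≤ 4 * (1 - t ^ 2) * (c * P ^ 2 * (1 + t ^ 2) + S * R) := by
  have hk : 0 < c + S := by linarith
  have hd : 0 < c - S := by
    by_contra h
    have : (c - S) * (c + S) ≤ 0 := mul_nonpos_of_nonpos_of_nonneg (by linarith) hk.le
    nlinarith
  have hdk : (c - S) * (c + S) = 1 := by linarith
  have h1 : 0 ≤ (c - S) * (P - (c + S) * S * t * E / 2) ^ 2 := by positivity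
  have h2 : (c - S) * (P - (c + S) * S * t * E / 2) ^ 2 =
      (c - S) * P ^ 2 - S * t * E * P + (c + S) * S ^ 2 * t ^ 2 * E ^ 2 / 4 := by
    linear_combination (-(S * t * E * P) + (c + S) * S ^ 2 * t ^ 2 * E ^ 2 / 4) * hdk
  have h3 : S * -((2 * P + E) * (t * P)) ≤ S * R := mul_le_mul_of_nonneg_left hR hS
  have h4 : 0 ≤ P ^ 2 * ((c - S) * t ^ 2 + S * (1 - t) ^ 2) := by positivity
  have h5 : -((c + S) * S ^ 2 * t ^ 2 * E ^ 2 / 4) ≤ c * P ^ 2 * (1 + t ^ 2) + S * R := by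
    nlinarith
  have h6 : 0 ≤ 1 - t ^ 2 := by nlinarith
  have h7 := mul_le_mul_of_nonneg_left h5 h6
  have h8 : 0 ≤ (c + S) * S ^ 2 * t ^ 2 * E ^ 2 := by positivity
  have h9 : 0 ≤ t ^ 2 * ((c + S) * S ^ 2 * t ^ 2 * E ^ 2) := by positivity
  nlinarith

lemma cplx_ineq (c S h E : ℝ) (p s : ℂ) (hcS : c ^ 2 - S ^ 2 = 1) (hc : 0 < c) (hS : 0 ≤ S)
    (hs : ‖s‖ ≤ 1) (hE : 0 ≤ E) (hh : h ^ 2 = 4 * ‖p‖ ^ 2 + E ^ 2) :
    ‖((c : ℂ) + 1) * conj p * s ^ 2 + S * h * s + (c - 1) * p‖ ^ 2 ≤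
      ‖((c : ℂ) - 1) * conj p * s ^ 2 + S * h * s + (c + 1) * p‖ ^ 2 +
        S ^ 2 * (c + S) * ‖s‖ ^ 2 * E ^ 2 := by
  have hR : -((2 * ‖p‖ + E) * (‖s‖ * ‖p‖)) ≤ h * (s * conj p).re := by
    have h1 : |h| ≤ 2 * ‖p‖ + E := by
      refine abs_le_of_sq_le_sq' ?_ (by positivity) |> abs_le.2
      nlinarith [norm_nonneg p, mul_nonneg (norm_nonneg p) hE]
    have h2 : |(s * conj p).re| ≤ ‖s‖ * ‖p‖ := by
      refine (Complex.abs_re_le_norm _).trans ?_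
      rw [norm_mul, Complex.norm_conj]
    have h3 : |h * (s * conj p).re| ≤ (2 * ‖p‖ + E) * (‖s‖ * ‖p‖) := by
      rw [abs_mul]; gcongr
    exact (abs_le.1 h3).1
  have key := real_ineq c S ‖s‖ ‖p‖ E _ hcS hc hS (norm_nonneg _) hs hR
  have id : ‖((c : ℂ) - 1) * conj p * s ^ 2 + S * h * s + (c + 1) * p‖ ^ 2 -
      ‖((c : ℂ) + 1) * conj p * s ^ 2 + S * h * s + (c - 1) * p‖ ^ 2 =
      4 * (1 - ‖s‖ ^ 2) * (c * ‖p‖ ^ 2 * (1 + ‖s‖ ^ 2) + S * (h * (s * conj p).re)) := by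
    simp only [Complex.sq_norm]
    simp only [Complex.normSq_apply, sq, Complex.add_re, Complex.add_im,
      Complex.mul_re, Complex.mul_im, Complex.sub_re, Complex.sub_im, Complex.ofReal_re,
      Complex.ofReal_im, Complex.one_re, Complex.one_im, Complex.conj_re, Complex.conj_im]
    ring
  linarith

lemma S_le (c S : ℝ) (hcS : c ^ 2 - S ^ 2 = 1) (hc : 0 < c) (hS : 0 ≤ S) : S ≤ c ∧ 1 ≤ c := by
  constructor <;> nlinarith

lemma sum_conj (ξ w : ι → ℂ) : ∑ k, conj (ξ k) * w k = conj (ip ξ w) := by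
  simp [ip, map_sum]

lemma cell_bd (hGR : SGR) (c S : ℝ) (w : ι → ℂ) (hA : Ax c S w) (x : V ι) (hx : x ∈ cone ι)
    (s : ℂ) (hs0 : s ≠ 0) (hs : ‖s‖ ≤ 1) :
    ‖s • rot c S w s x‖ ^ 2 ≤ (2 + 2 * c ^ 3) * nsq (s • rot c S w s x).2.2 := by
  obtain ⟨hSc, hc1⟩ := S_le c S hA.hyp hA.hc hA.hS
  have hS := hA.hS
  have hc3 : 0 ≤ c ^ 3 := by positivity
  obtain ⟨ho, -, -, hr⟩ := (hGR.rt ι c S w hA).2 s hs0
  refine null_bd hGR _ _ (by linarith) ?_ ?_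
  · have b1 := (hGR.bil ι (rot c S w s x) 0 (s • rot c S w s x) s).2.2.2.1
    have b2 := (hGR.bil ι (rot c S w s x) (s • rot c S w s x) 0 s).1
    have b3 := (hGR.bil ι (rot c S w s x) 0 (rot c S w s x) s).2.2.2.1
    rw [b1, b2, b3, ho, hx.2.1]; simp
  obtain ⟨a, ξ, ha, hξ, rfl⟩ := (hGR.mem ι x).1 hx
  obtain ⟨hP, hM, he, hm⟩ :=
    (hGR.vec ι c S w hA).2.2.2.2.2.2.2.2 ((a : ℂ), fun k => conj (ξ k), ξ)
  simp only [sum_conj] at he hm
  set u := ip ξ w with hu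
  set p : ℂ := (-((a : ℂ) * S) + (((c : ℂ) - 1) * conj u + ((c : ℂ) + 1) * u) / 2) / 2 with hp
  have hpc : conj p = (-((a : ℂ) * S) + (((c : ℂ) + 1) * conj u + ((c : ℂ) - 1) * u) / 2) / 2 := by
    simp only [hp, map_div₀, map_add, map_neg, map_mul, map_sub, Complex.conj_ofReal,
      Complex.conj_conj, map_one, map_ofNat]
    ring
  rw [he, ← hp] at hM
  rw [hm, ← hpc] at hP
  have e1 : (s • rot c S w s ((a : ℂ), fun k => conj (ξ k), ξ)).2.1 = fun k => s * conj (ξ k) +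
      (s * (s - 1) * conj p * ((c : ℂ) + 1) + (1 - s) * p * ((c : ℂ) - 1)) * conj (w k) := by
    funext k
    simp only [hr, add_apply, smul_apply,
      one_apply_eq_self, hP, hM, ep, H11.em, Prod.smul_snd, Prod.smul_fst, Prod.snd_add,
      Prod.fst_add, Pi.smul_apply, Pi.add_apply, smul_eq_mul]
    field_simp
    ring
  have e2 : (s • rot c S w s ((a : ℂ), fun k => conj (ξ k), ξ)).2.2 = fun k => s * ξ k +
      (s * (s - 1) * conj p * ((c : ℂ) - 1) + (1 - s) * p * ((c : ℂ) + 1)) * w k := by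
    funext k
    simp only [hr, add_apply, smul_apply,
      one_apply_eq_self, hP, hM, ep, H11.em, Prod.smul_snd, Prod.smul_fst, Prod.snd_add,
      Prod.fst_add, Pi.smul_apply, Pi.add_apply, smul_eq_mul]
    field_simp
    ring
  rw [e1, e2, nsq_comb' _ _ hA.unit, nsq_comb _ _ hA.unit, ← hu, hξ]
  have hE2 : 0 ≤ a ^ 2 - ‖u‖ ^ 2 := by
    have := (hGR.nrm ι ξ w).2.2.2.1
    rw [hA.unit, hξ, ← hu] at this
    linarith
  have hcc : (c : ℂ) ^ 2 - (S : ℂ) ^ 2 = 1 := by exact_mod_cast hA.hyp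
  have hre : ((u.re : ℝ) : ℂ) = (u + conj u) / 2 := Complex.re_eq_add_conj u
  have q1 : s * conj u + (s * (s - 1) * conj p * ((c : ℂ) + 1) + (1 - s) * p * ((c : ℂ) - 1)) =
      ((c : ℂ) + 1) * conj p * s ^ 2 + S * ((a * c - S * u.re : ℝ) : ℂ) * s + (c - 1) * p := by
    push_cast
    rw [hre, hpc, hp]
    linear_combination (-(s * (u + conj u) / 2)) * hcc
  have q2 : s * u + (s * (s - 1) * conj p * ((c : ℂ) - 1) + (1 - s) * p * ((c : ℂ) + 1)) =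
      ((c : ℂ) - 1) * conj p * s ^ 2 + S * ((a * c - S * u.re : ℝ) : ℂ) * s + (c + 1) * p := by
    push_cast
    rw [hre, hpc, hp]
    linear_combination (-(s * (u + conj u) / 2)) * hcc
  rw [q1, q2]
  have hh : (a * c - S * u.re) ^ 2 = 4 * ‖p‖ ^ 2 + √(a ^ 2 - ‖u‖ ^ 2) ^ 2 := by
    rw [Real.sq_sqrt hE2, Complex.sq_norm, Complex.sq_norm, Complex.normSq_apply,
      Complex.normSq_apply]
    have r1 : p.re = (-(a * S) + c * u.re) / 2 := by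
      simp [hp]; ring
    have r2 : p.im = u.im / 2 := by
      simp [hp]; ring
    rw [r1, r2]
    linear_combination (a ^ 2 - u.re ^ 2) * hA.hyp
  have key := cplx_ineq c S _ _ p s hA.hyp hA.hc hA.hS hs (Real.sqrt_nonneg _) hh
  rw [Real.sq_sqrt hE2] at key
  have k1 : S ^ 2 * (c + S) ≤ 2 * c ^ 3 := by
    calc S ^ 2 * (c + S) ≤ c ^ 2 * (c + c) := by gcongr
      _ = _ := by ring
  have k2 : 0 ≤ ‖s‖ ^ 2 * (a ^ 2 - ‖u‖ ^ 2) := by positivity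
  have k3 := mul_le_mul_of_nonneg_right k1 k2
  set X := ‖((c : ℂ) - 1) * conj p * s ^ 2 + S * ((a * c - S * u.re : ℝ) : ℂ) * s + (c + 1) * p‖ ^ 2
  have k4 : 0 ≤ X := by positivity
  nlinarith [mul_nonneg hc3 k4]

lemma em_bd (hGR : SGR) (c S : ℝ) (w : ι → ℂ) (hA : Ax c S w) : em c S w ≠ 0 ∧
    ‖em c S w‖ ^ 2 ≤ (2 + 2 * c ^ 3) * nsq (em c S w).2.2 := by
  obtain ⟨hSc, hc1⟩ := S_le c S hA.hyp hA.hc hA.hS
  have hc3 : 0 ≤ c ^ 3 := by positivity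
  have hv := hGR.vec ι c S w hA
  refine ⟨fun h => ?_, null_bd hGR _ _ (by linarith) hv.2.1 ?_⟩
  · have := hv.2.2.1
    rw [h] at this
    simp [B] at this
  have e1 : nsq (em c S w).2.1 = (c - 1) ^ 2 := by
    have := (hGR.nrm ι (fun k => conj (w k)) w).2.2.2.2.2.2 ((c - 1 : ℝ) : ℂ)
    rw [nsq_conj, hA.unit, Complex.norm_real, Real.norm_eq_abs, sq_abs, mul_one] at this
    rw [← this]
    congr 1
    funext k
    simp [H11.em]
  have e2 : nsq (em c S w).2.2 = (c + 1) ^ 2 := by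
    have := (hGR.nrm ι w w).2.2.2.2.2.2 ((c + 1 : ℝ) : ℂ)
    rw [hA.unit, Complex.norm_real, Real.norm_eq_abs, sq_abs, mul_one] at this
    rw [← this]
    congr 1
    funext k
    simp [H11.em]
  rw [e1, e2]
  nlinarith [mul_nonneg hc3 (sq_nonneg (c + 1))]

lemma pole_bd (hGR : SGR) (c S : ℝ) (w : ι → ℂ) (hA : Ax c S w) (x : V ι) (hx : x ∈ cone ι)
    (hB : B x (ep c S w) = 0) (l : ℂ) : x + l • em c S w ≠ 0 ∧
    ‖x + l • em c S w‖ ^ 2 ≤ (2 + 2 * c ^ 3) * nsq (x + l • em c S w).2.2 := by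
  obtain ⟨hSc, hc1⟩ := S_le c S hA.hyp hA.hc hA.hS
  have hS := hA.hS
  have hc3 : 0 ≤ c ^ 3 := by positivity
  have hv := hGR.vec ι c S w hA
  have hB' : B x (em c S w) = 0 := by
    have := (hGR.bil ι x (ep c S w) 0 0).2.2.2.2.1
    rw [hx.1, hv.2.2.2.1, hB] at this
    simpa using this
  have hn : B (x + l • em c S w) (x + l • em c S w) = 0 := by
    have z : ∀ y, B (x + l • em c S w) y = B x y + l * B (em c S w) y := fun y => by
      rw [(hGR.bil ι x (l • em c S w) y l).2.2.1, (hGR.bil ι (em c S w) 0 y l).2.2.2.1]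
    rw [z, (hGR.bil ι x (x + l • em c S w) 0 0).1, (hGR.bil ι (em c S w) (x + l • em c S w) 0 0).1,
      z, z, hx.2.1, (hGR.bil ι (em c S w) x 0 0).1, hB', hv.2.1]
    simp
  obtain ⟨a, ξ, ha, hξ, rfl⟩ := (hGR.mem ι x).1 hx
  have he := (hv.2.2.2.2.2.2.2.2 ((a : ℂ), fun k => conj (ξ k), ξ)).2.2.1
  simp only [sum_conj] at he
  rw [hB] at he
  set u := ip ξ w with hu
  have r1 : c * u.re = a * S := by
    have := congrArg Complex.re he
    simp at this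
    linarith
  have r2 : u.im = 0 := by
    have := congrArg Complex.im he
    simp at this
    linarith
  have hcu : conj u = u := Complex.conj_eq_iff_im.2 r2
  have e1 : (((a : ℂ), (fun k => conj (ξ k)), ξ) + l • em c S w).2.1 =
      fun k => 1 * conj (ξ k) + (l * ((c : ℂ) - 1)) * conj (w k) := by
    funext k
    simp only [H11.em, Prod.smul_snd, Prod.smul_fst, Prod.snd_add,
      Prod.fst_add, Pi.smul_apply, Pi.add_apply, smul_eq_mul]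
    ring
  have e2 : (((a : ℂ), (fun k => conj (ξ k)), ξ) + l • em c S w).2.2 =
      fun k => 1 * ξ k + (l * ((c : ℂ) + 1)) * w k := by
    funext k
    simp only [H11.em, Prod.smul_snd, Prod.smul_fst, Prod.snd_add,
      Prod.fst_add, Pi.smul_apply, Pi.add_apply, smul_eq_mul]
    ring
  have hu2 : ‖u‖ ^ 2 = u.re ^ 2 := by
    rw [Complex.sq_norm, Complex.normSq_apply, r2]; ring
  have hE : c ^ 2 * (a ^ 2 - ‖u‖ ^ 2) = a ^ 2 := by
    rw [hu2]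
    linear_combination a ^ 2 * hA.hyp - (c * u.re + a * S) * r1
  have hc2 : 0 < c ^ 2 := by positivity
  have hE0 : 0 < a ^ 2 - ‖u‖ ^ 2 := by
    by_contra h
    have : c ^ 2 * (a ^ 2 - ‖u‖ ^ 2) ≤ 0 := mul_nonpos_of_nonneg_of_nonpos hc2.le (by linarith)
    nlinarith
  refine ⟨fun h => ?_, null_bd hGR _ _ (by linarith) hn ?_⟩
  · have := nsq_comb ξ w hA.unit 1 (l * ((c : ℂ) + 1))
    rw [← e2, h, ← hu, hξ] at this
    simp [nsq] at this
    nlinarith [sq_nonneg ‖u + l * ((c : ℂ) + 1)‖]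
  rw [e1, e2, nsq_comb' _ _ hA.unit, nsq_comb _ _ hA.unit, ← hu, hξ, hcu, one_mul, norm_one,
    one_pow, one_mul]
  have k0 : ‖u + l * ((c : ℂ) - 1)‖ ≤ ‖u + l * ((c : ℂ) + 1)‖ + ‖u‖ := by
    have hc' : (0 : ℝ) < c + 1 := by linarith
    have i1 : ((c + 1 : ℝ) : ℂ) * (u + l * ((c : ℂ) - 1)) =
        ((c - 1 : ℝ) : ℂ) * (u + l * ((c : ℂ) + 1)) + 2 * u := by
      push_cast; ring
    have i2 : (c + 1) * ‖u + l * ((c : ℂ) - 1)‖ ≤ (c - 1) * ‖u + l * ((c : ℂ) + 1)‖ + 2 * ‖u‖ := by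
      have := norm_add_le (((c - 1 : ℝ) : ℂ) * (u + l * ((c : ℂ) + 1))) (2 * u)
      rw [← i1, norm_mul, norm_mul, norm_mul, Complex.norm_real, Complex.norm_real,
        Real.norm_of_nonneg hc'.le, Real.norm_of_nonneg (by linarith), Complex.norm_two] at this
      exact this
    refine le_of_mul_le_mul_left ?_ hc'
    nlinarith [norm_nonneg u, norm_nonneg (u + l * ((c : ℂ) + 1))]
  set X := ‖u + l * ((c : ℂ) + 1)‖
  set Y := ‖u + l * ((c : ℂ) - 1)‖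
  have hY : 0 ≤ Y := norm_nonneg _
  have k1 : Y ^ 2 ≤ (X + ‖u‖) ^ 2 := by gcongr
  have k2 : c ^ 2 ≤ c ^ 3 := by nlinarith
  have k3 := mul_le_mul_of_nonneg_right k2 hE0.le
  nlinarith [sq_nonneg (X - ‖u‖), mul_nonneg hc3 (sq_nonneg X)]

lemma far_bd (hGR : SGR) (x : V ι) (hx : x ∈ cone ι) (s : ℂ) (hs : 1 ≤ ‖s‖) : dg s x ≠ 0 ∧
    ‖dg s x‖ ^ 2 ≤ ‖s‖ ^ 4 * nsq (dg s x).2.2 := by
  have hs0 : s ≠ 0 := by
    intro h; rw [h, norm_zero] at hs; linarith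
  have hb := (hGR.blk ι x s).2.2.2
  have ho := ((hGR.dgp ι).2 s hs0).1
  refine ⟨fun h => ?_, null_bd hGR _ _ (one_le_pow₀ hs) (by rw [ho, hx.2.1]) ?_⟩
  · have h1 : x.1 = 0 := by
      have := congrArg Prod.fst (hb.symm.trans h)
      simpa using this
    have := hx.2.2
    rw [h1] at this
    simp at this
  obtain ⟨a, ξ, ha, hξ, rfl⟩ := (hGR.mem ι x).1 hx
  rw [hb]
  simp only
  rw [(hGR.nrm ι _ ξ).2.2.2.2.2.2, (hGR.nrm ι _ ξ).2.2.2.2.2.2, nsq_conj, norm_inv]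
  have : ‖s‖ ≠ 0 := norm_ne_zero_iff.2 hs0
  apply le_of_eq
  field_simp

end Cnv

open Cnv in
theorem snv (hGR : SGR) : SNV := by
  intro r m _ C
  set K : ℝ := 2 + 2 * (4 * r + 1) ^ 3 with hK
  have hK1 : 1 ≤ K := by
    have : (0 : ℝ) ≤ (4 * r + 1) ^ 3 := by positivity
    linarith
  set M : ℝ := r * (C * (m + 1)) ^ 2 * K with hM
  filter_upwards [eventually_ge_atTop (8 * m + 1),
    tendsto_natCast_atTop_atTop.eventually_gt_atTop M] with n hn hnM c S om F Fi Fr hR hF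
  have hn1 : (1 : ℝ) ≤ n := by exact_mod_cast (by omega : 1 ≤ n)
  have hn0 : (0 : ℝ) < n := by linarith
  have hm1 : (1 : ℝ) ≤ (m : ℝ) + 1 := by have : (0 : ℝ) ≤ m := Nat.cast_nonneg _; linarith
  have hMn : M / n ^ 2 < 1 := by
    rw [div_lt_one (by positivity)]
    nlinarith
  have hr0 : (0 : ℝ) ≤ r := Nat.cast_nonneg _
  have hKc : ∀ j : Fin m, 0 ≤ 2 + 2 * c ^ 3 ∧
      Fintype.card (Fin r) * (C / n) ^ 2 * (2 + 2 * c ^ 3) < 1 := fun j => by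
    have hc := (hR.ax j).hc
    have h1 : 2 + 2 * c ^ 3 ≤ K := by
      have : c ^ 3 ≤ (4 * r + 1) ^ 3 := by gcongr; exact hR.hc
      linarith
    refine ⟨by positivity, lt_of_le_of_lt ?_ hMn⟩
    rw [Fintype.card_fin]
    have h2 : C ^ 2 ≤ (C * (m + 1)) ^ 2 := by
      rw [mul_pow]
      have : (1 : ℝ) ≤ ((m : ℝ) + 1) ^ 2 := one_le_pow₀ hm1
      nlinarith [sq_nonneg C]
    calc (r : ℝ) * (C / n) ^ 2 * (2 + 2 * c ^ 3) = r * C ^ 2 * (2 + 2 * c ^ 3) / n ^ 2 := by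
          field_simp
      _ ≤ r * (C * (m + 1)) ^ 2 * K / n ^ 2 := by gcongr
  refine ⟨fun x hx j s hs0 hs => ?_, fun j => ?_, fun x hx τ hτ => ?_⟩
  · have hs1 : ‖s‖ ≤ 1 := by
      by_contra h
      rw [norm_pow] at hs
      have := one_le_pow₀ (n := n) (not_le.1 h).le
      linarith
    have hA := hR.ax j
    have hy : s • rot c S (om j) s x ≠ 0 := by
      refine smul_ne_zero hs0 fun h => (hGR.cn _ x hx).1 ?_
      have h1 := ((hGR.rt _ c S (om j) hA).2 s⁻¹ (inv_ne_zero hs0)).2.2.1 s hs0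
      rw [inv_mul_cancel₀ hs0, (hGR.rt _ c S (om j) hA).1] at h1
      have h2 := congrArg (fun T : EV (Fin r) => T x) h1
      simpa [h] using h2
    have := pert hGR (F (tp j + s ^ n)) _ _ _ (hF.near _) (hKc j).1
      (cell_bd hGR c S (om j) hA x hx s hs0 hs1) hy (hKc j).2
    intro h0
    apply this
    rw [map_smul, Prod.smul_snd, Prod.smul_snd, h0, smul_zero]
  · have hA := hR.ax j
    have h1 := em_bd hGR c S (om j) hA
    have h2 := pert hGR (F (tp j)) _ _ _ (hF.near _) (hKc j).1 h1.2 h1.1 (hKc j).2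
    refine ⟨h2, fun x hx hB => ?_⟩
    by_contra hcon
    push Not at hcon
    obtain ⟨l, hl⟩ : ∃ l, (F (tp j) (em c S (om j))).2.2 l ≠ 0 := by
      by_contra h
      push Not at h
      exact h2 (funext h)
    have h3 := pole_bd hGR c S (om j) hA x hx hB
      (-((F (tp j) x).2.2 l / (F (tp j) (em c S (om j))).2.2 l))
    refine pert hGR (F (tp j)) _ _ _ (hF.near _) (hKc j).1 h3.2 h3.1 (hKc j).2 ?_
    funext k
    have h4 := hcon l k
    unfold mnr at h4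
    simp only [map_add, map_smul, Prod.snd_add, Prod.smul_snd, Pi.add_apply, Pi.smul_apply,
      smul_eq_mul, Pi.zero_apply]
    field_simp
    linear_combination h4
  · have hτ1 : 1 ≤ ‖τ‖ := by
      by_contra h
      rw [norm_pow] at hτ
      have := pow_le_one₀ (n := n) (norm_nonneg τ) (not_le.1 h).le
      linarith
    have ht0 : 0 < ‖τ ^ n‖ := by linarith
    have hm0 : (0 : ℝ) < (m : ℝ) + 1 := by linarith
    have hball : ∀ w : ℂ, w ∈ ball (0 : ℂ) (1 / ((m : ℝ) + 1)) ↔ ((m : ℝ) + 1) * ‖w‖ < 1 := by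
      intro w
      rw [mem_ball_zero_iff, lt_div_iff₀ hm0, mul_comm]
    have hC : 0 ≤ C / n := (norm_nonneg _).trans (hF.near 0)
    have hsch : dist (Fi (τ ^ n)⁻¹) (Fi 0) ≤ C / n / (1 / ((m : ℝ) + 1)) * dist (τ ^ n)⁻¹ 0 := by
      refine Complex.dist_le_div_mul_dist_of_mapsTo_ball
        (fun w hw => (hF.inf.2 w ((hball w).1 hw)).differentiableAt.differentiableWithinAt)
        (fun w hw => ?_) ?_
      · rw [mem_closedBall, dist_eq_norm, hF.inf.1]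
        by_cases h0 : w = 0
        · rw [h0, hF.inf.1, sub_self, norm_zero]; exact hC
        · have hw0 : 0 < ‖w‖ := norm_pos_iff.2 h0
          have := (hF.ani w⁻¹ (by
            rw [norm_inv, lt_inv_comm₀ hm0 hw0, ← one_div]
            exact mem_ball_zero_iff.1 hw)).2.2
          rw [inv_inv] at this
          rw [this]
          exact hF.near _
      · rw [hball, norm_inv, ← div_eq_mul_inv, div_lt_one ht0]
        linarith
    rw [(hF.ani (τ ^ n) (by linarith)).2.2, hF.inf.1, dist_eq_norm, dist_zero_right,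
      norm_inv] at hsch
    have hs1 : 1 ≤ ‖τ ^ (4 * m)‖ := by rw [norm_pow]; exact one_le_pow₀ hτ1
    have h1 := far_bd hGR x hx _ hs1
    refine pert hGR (F (τ ^ n)) _ _ _ hsch (by positivity) h1.2 h1.1 (lt_of_le_of_lt ?_ hMn)
    have h2 : ‖τ ^ (4 * m)‖ ^ 4 ≤ ‖τ ^ n‖ ^ 2 := by
      rw [norm_pow, norm_pow, ← pow_mul, ← pow_mul]
      exact pow_le_pow_right₀ hτ1 (by omega)
    rw [Fintype.card_fin]
    calc (r : ℝ) * (C / n / (1 / ((m : ℝ) + 1)) * ‖τ ^ n‖⁻¹) ^ 2 * ‖τ ^ (4 * m)‖ ^ 4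
        ≤ r * (C / n / (1 / ((m : ℝ) + 1)) * ‖τ ^ n‖⁻¹) ^ 2 * ‖τ ^ n‖ ^ 2 := by gcongr
      _ = r * (C * (m + 1)) ^ 2 * 1 / n ^ 2 := by field_simp
      _ ≤ r * (C * (m + 1)) ^ 2 * K / n ^ 2 := by gcongr

end Pool.Agent.MP_fcd29e_an.H87
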