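import Pool.Agent.MP_fcd29e_an.H81.Spec2

/-! In the thin case the set is locally a holomorphic graph. -/

set_option autoImplicit false

namespace Pool.Agent.MP_fcd29e_an.H87

open Pool.Agent.MP_fcd29e_an.H81 MeasureTheory Complex Set Filter Topology Metric
open scoped ContDiff ComplexConjugate ENNReal NNReal

noncomputable section

variable {N : ℕ} {ρ : E N → ℝ} {K : Set (E N)}

/-- `∂ρ(x)` as a linear form. -/
def avC (ρ : E N → ℝ) (x : E N) : E N →L[ℂ] ℂ :=
  ∑ j, dz j (cx ρ) x • (EuclideanSpace.proj j : E N →L[ℂ] ℂ)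

theorem avC_apply (x v : E N) : avC ρ x v = av ρ x v := by simp [avC, av]

theorem avC_ee (x : E N) (j : Fin N) : avC ρ x (ee j) = dz j (cx ρ) x := by
  simp [avC, ee]

theorem avC_smooth (hρ : Dom ρ) {x : E N} (hx : x ≠ 0) : ContDiffAt ℝ ∞ (avC ρ) x :=
  ContDiffAt.sum fun j _ => (contDiffAt_dz j (contDiffAt_cx
    (hρ.smooth.contDiffAt (isOpen_E0.mem_nhds hx)))).smul contDiffAt_const

theorem setup (hg : StmtGR) (hf : StmtFLW) (hρ : Dom ρ) (hK : KS ρ K) (hP : PN ρ K)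
    (hT : Thin ρ K) {p : E N} (hp : p ∈ K) : ∃ (u : E N) (l : E N →L[ℂ] ℂ) (ε δ : ℝ),
      0 < δ ∧ 3 * δ ≤ ε ∧ l u = 1 ∧ (∀ z ∈ ball p ε, z ∈ Reg ρ ∧ av ρ z u ≠ 0) ∧
      (∀ x ∈ K ∩ ball p ε, ∀ y ∈ K ∩ ball p ε, ‖l (y - x) • u‖ ≤ ‖y - x‖ / 2) ∧
      ∀ v, ‖v - l v • u‖ < δ → ∃ q ∈ K ∩ ball p ε, q - p - l (q - p) • u = v - l v • u := by
  have hp0 : p ≠ 0 := fun e => hK.cone.1 (e ▸ hp)
  have hpR : p ∈ Reg ρ := ⟨hp0, hρ.reg p hp0 (hK.bd p hp)⟩
  set u := nv ρ p with hu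
  have ha : av ρ p u ≠ 0 := by
    obtain ⟨r, hr, -, -, -, -, -, -, h, -⟩ := hf N ρ hρ p hpR 1 one_pos
    exact h p (mem_closedBall_self (by positivity))
  have ha' : 0 < ‖av ρ p u‖ := norm_pos_iff.2 ha
  obtain ⟨c, hc, hcu⟩ : ∃ c > 0, 4 * c * ‖u‖ ≤ ‖av ρ p u‖ := by
    refine ⟨‖av ρ p u‖ / (4 * (‖u‖ + 1)), by positivity, ?_⟩
    rw [mul_div_assoc', div_mul_eq_mul_div, div_le_iff₀ (by positivity)]
    nlinarith [norm_nonneg u]
  obtain ⟨ε₁, hε₁, h1⟩ := hT p hp c hc
  obtain ⟨ε₂, hε₂, h2⟩ := Metric.continuousAt_iff.1 (avC_smooth hρ hp0).continuousAt c hc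
  obtain ⟨r, hr, τ, hτ, L, hrε, hr4, hR, hav, hw⟩ := hf N ρ hρ p hpR (min ε₁ ε₂ / 2) (by positivity)
  have hε : 2 * r ≤ ε₁ ∧ 2 * r ≤ ε₂ := ⟨by linarith [min_le_left ε₁ ε₂], by linarith [min_le_right ε₁ ε₂]⟩
  obtain ⟨l, hl⟩ : ∃ l : E N →L[ℂ] ℂ, ∀ v, l v = av ρ p v / av ρ p u :=
    ⟨(av ρ p u)⁻¹ • avC ρ p, fun v => by simp [avC_apply, div_eq_inv_mul]⟩
  have hlu : l u = 1 := by rw [hl, div_self ha]
  refine ⟨u, l, 2 * r, min τ (2 * r / 3), by positivity, by linarith [min_le_right τ (2 * r / 3)],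
    hlu, fun z hz => ⟨hR (ball_subset_closedBall hz), hav z (ball_subset_closedBall hz)⟩,
    fun x hx y hy => ?_, fun v hv => ?_⟩
  · have h3 := h1 x ⟨hx.1, ball_subset_ball hε.1 hx.2⟩ y ⟨hy.1, ball_subset_ball hε.1 hy.2⟩
    have h4 := h2 (ball_subset_ball hε.2 hx.2)
    rw [dist_eq_norm] at h4
    have h5 := (avC ρ x - avC ρ p).le_opNorm (y - x)
    rw [sub_apply, avC_apply, avC_apply] at h5
    have h6 : ‖av ρ p (y - x)‖ ≤ 2 * c * ‖y - x‖ := by
      have := norm_sub_norm_le (av ρ p (y - x)) (av ρ x (y - x))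
      rw [norm_sub_rev (av ρ p _)] at this
      nlinarith [norm_nonneg (y - x)]
    rw [hl, norm_smul, norm_div, div_mul_eq_mul_div, div_le_iff₀ ha']
    nlinarith [norm_nonneg (y - x), norm_nonneg u, mul_le_mul_of_nonneg_right h6 (norm_nonneg u),
      mul_le_mul_of_nonneg_right hcu (norm_nonneg (y - x))]
  · set v' := v - l v • u with hv'
    have hlv : l v' = 0 := by simp [hv', hlu]
    have hvτ : ‖v'‖ < τ := hv.trans_le (min_le_left _ _)
    set w := (τ⁻¹ : ℝ) • v' with hw'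
    have hw1 : ‖w‖ ≤ 1 := by
      rw [hw', norm_smul, norm_inv, Real.norm_of_nonneg hτ.le, inv_mul_le_iff₀ hτ]; linarith
    have hlw : l w = 0 := by rw [hw', l.map_smul_of_tower, hlv, smul_zero]
    obtain ⟨hL, hX, hγ⟩ := hw w hw1
    obtain ⟨γ, hγ0, hγ⟩ := hγ p (mem_closedBall_self (by positivity))
    have hγK := (hg N ρ K hK hP p hp r τ 0 L _ γ _ hr hr4 hL (fun z hz => (hX z hz.2).2.1)
      (hγ0 ▸ hp) (fun t ht => ⟨(hγ t ht).1, (hγ t ht).2, by simp⟩) τ ⟨hτ.le, le_rfl⟩).2 rfl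
    refine ⟨γ τ, ⟨hγK, closedBall_subset_ball (by linarith) (hγ τ ⟨hτ.le, le_rfl⟩).2⟩, ?_⟩
    have hd : ∀ t ∈ Icc 0 τ, HasDerivAt (fun t => γ t - p - l (γ t - p) • u - t • w) 0 t := by
      intro t ht
      have h3 := (hγ t ht).1.sub_const p
      have h4 := ((l.restrictScalars ℝ).hasFDerivAt.comp_hasDerivAt t h3).smul_const u
      have h5 := (h3.sub h4).sub ((hasDerivAt_id t).smul_const w)
      refine h5.congr_deriv ?_
      simp [Xf, ← hu, hlu, hlw]
    have h3 := constant_of_has_deriv_right_zero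
      (fun t ht => (hd t ht).continuousAt.continuousWithinAt)
      (fun t ht => (hd t (Ico_subset_Icc_self ht)).hasDerivWithinAt) τ ⟨hτ.le, le_rfl⟩
    simp only [hγ0, sub_self, map_zero, zero_smul] at h3
    rw [sub_eq_zero.1 h3, hw', smul_smul, mul_inv_cancel₀ hτ.ne', one_smul]

theorem th1 (_ : Lv0) (hg : StmtGR) (hf : StmtFLW) : StmtTH1 := by
  intro N ρ K hρ hK hP hT p hp
  obtain ⟨u, l, ε, δ, hδ, hδε, hlu, hR, hth, hon⟩ := setup hg hf hρ hK hP hT hp
  have hlip : ∀ x ∈ K ∩ ball p ε, ∀ y ∈ K ∩ ball p ε,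
      ‖y - x‖ ≤ 2 * ‖y - x - l (y - x) • u‖ := by
    intro x hx y hy
    linarith [hth x hx y hy, norm_sub_norm_le (y - x) (l (y - x) • u)]
  have hu0 : u ≠ 0 := fun e => by simp [e] at hlu
  have huniq : ∀ (z : E N) (t t' : ℂ), z - t • u ∈ K ∩ ball p ε → z - t' • u ∈ K ∩ ball p ε →
      t = t' := by
    intro z t t' h h'
    have h1 := hlip _ h _ h'
    have e : z - t' • u - (z - t • u) = (t - t') • u := by rw [sub_smul]; abel
    rw [e, map_smul, hlu, smul_eq_mul, mul_one, sub_self, norm_zero, mul_zero, norm_le_zero_iff,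
      smul_eq_zero] at h1
    exact sub_eq_zero.1 (h1.resolve_right hu0)
  set B : Set (E N) := {z | ‖z - p - l (z - p) • u‖ < δ ∧ ‖l (z - p) • u‖ < 2 * δ} with hB
  have hBo : IsOpen B := by
    have h1 : Continuous fun z : E N => ‖z - p - l (z - p) • u‖ := by fun_prop
    have h2 : Continuous fun z : E N => ‖l (z - p) • u‖ := by fun_prop
    exact (isOpen_lt h1 continuous_const).inter (isOpen_lt h2 continuous_const)
  have hBε : B ⊆ ball p ε := by
    intro z hz
    rw [mem_ball, dist_eq_norm]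
    linarith [hz.1, hz.2, norm_sub_norm_le (z - p) (l (z - p) • u)]
  have hex : ∀ z, ∃ t : ℂ, z ∈ B → z - t • u ∈ K ∩ ball p ε := by
    intro z
    by_cases hz : z ∈ B
    · obtain ⟨q, hq, e⟩ := hon (z - p) hz.1
      refine ⟨l (z - p) - l (q - p), fun _ => ?_⟩
      have : z - (l (z - p) - l (q - p)) • u = q := by
        rw [sub_smul]
        calc _ = z - p - l (z - p) • u + p + l (q - p) • u := by abel
          _ = q := by rw [← e]; abel
      rwa [this]
    · exact ⟨0, fun h => absurd h hz⟩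
  choose f hfK using hex
  have hpε : p ∈ K ∩ ball p ε := ⟨hp, mem_ball_self (by linarith)⟩
  have hπ : ∀ (z : E N) (t : ℂ), z - t • u - l (z - t • u) • u = z - l z • u := by
    intro z t
    rw [map_sub, map_smul, hlu, smul_eq_mul, mul_one, sub_smul]; abel
  have hder : ∀ z ∈ B, HasFDerivAt f (((av ρ (z - f z • u) u)⁻¹ •
      avC ρ (z - f z • u)).restrictScalars ℝ) z := by
    intro z hz
    have hq := hfK z hz
    have hqa := (hR _ hq.2).2
    have hqn : 0 < ‖av ρ (z - f z • u) u‖ := norm_pos_iff.2 hqa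
    have hC : 0 < 2 * (1 + ‖l‖ * ‖u‖) := by positivity
    have hL : ∀ y ∈ B, ‖y - f y • u - (z - f z • u)‖ ≤ 2 * (1 + ‖l‖ * ‖u‖) * ‖y - z‖ := by
      intro y hy
      have h1 := hlip _ hq _ (hfK y hy)
      have e : y - f y • u - (z - f z • u) = y - z - (f y - f z) • u := by rw [sub_smul]; abel
      rw [e] at h1 ⊢
      rw [hπ] at h1
      have h2 := norm_sub_le (y - z) (l (y - z) • u)
      rw [norm_smul] at h2
      nlinarith [mul_le_mul_of_nonneg_right (l.le_opNorm (y - z)) (norm_nonneg u)]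
    rw [hasFDerivAt_iff_isLittleO, Asymptotics.isLittleO_iff]
    intro c hc
    obtain ⟨η, hη, h1⟩ := hT _ hq.1 (c * ‖av ρ (z - f z • u) u‖ / (2 * (1 + ‖l‖ * ‖u‖)))
      (by positivity)
    filter_upwards [hBo.mem_nhds hz, ball_mem_nhds z (div_pos hη hC)] with y hy hy'
    rw [mem_ball, dist_eq_norm, lt_div_iff₀ hC] at hy'
    have h2 := hL y hy
    have h3 := h1 _ ⟨hq.1, mem_ball_self hη⟩ (y - f y • u)
      ⟨(hfK y hy).1, by rw [mem_ball, dist_eq_norm]; linarith⟩
    have e : f y - f z - (((av ρ (z - f z • u) u)⁻¹ • avC ρ (z - f z • u)).restrictScalars ℝ)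
        (y - z) = -(av ρ (z - f z • u) (y - f y • u - (z - f z • u)) / av ρ (z - f z • u) u) := by
      have e1 : y - f y • u - (z - f z • u) = y - z - (f y - f z) • u := by rw [sub_smul]; abel
      rw [e1, ← avC_apply _ (y - z - _), map_sub _ (y - z), map_smul, avC_apply _ u]
      simp only [ContinuousLinearMap.coe_restrictScalars', smul_apply,
        smul_eq_mul]
      field_simp
      ring
    rw [e, norm_neg, norm_div, div_le_iff₀ hqn]
    calc _ ≤ c * ‖av ρ (z - f z • u) u‖ / (2 * (1 + ‖l‖ * ‖u‖)) *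
          (2 * (1 + ‖l‖ * ‖u‖) * ‖y - z‖) := h3.trans (by gcongr)
      _ = _ := by field_simp
  have hsm : ∀ n : ℕ, ContDiffOn ℝ n f B := by
    intro n
    induction n with
    | zero => exact contDiffOn_zero.2 fun z hz => (hder z hz).continuousAt.continuousWithinAt
    | succ n ih =>
      rw [Nat.cast_succ, contDiffOn_succ_iff_fderiv_of_isOpen hBo]
      refine ⟨fun z hz => (hder z hz).differentiableAt.differentiableWithinAt, by simp, ?_⟩
      refine ContDiffOn.congr (fun z hz => ?_) fun z hz => (hder z hz).fderiv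
      have hq := hR _ (hfK z hz).2
      have h0 : ContDiffAt ℝ n (fun y => y - f y • u) z :=
        contDiffAt_id.sub ((ih.contDiffAt (hBo.mem_nhds hz)).smul contDiffAt_const)
      have h0' : ContDiffAt ℝ n (avC ρ) (z - f z • u) :=
        (avC_smooth hρ hq.1.1).of_le (by exact_mod_cast le_top)
      have h1 : ContDiffAt ℝ n (fun y => avC ρ (y - f y • u)) z :=
        ContDiffAt.comp (g := avC ρ) z h0' h0
      have h2 : ContDiffAt ℝ n (fun y => av ρ (y - f y • u) u) z := by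
        simp only [← avC_apply]
        exact ((ContinuousLinearMap.apply ℂ ℂ u).restrictScalars ℝ).contDiff.contDiffAt.comp z h1
      exact ((ContinuousLinearMap.restrictScalarsL ℂ (E N) ℂ ℝ ℝ).contDiff.contDiffAt.comp z
        ((h2.inv hq.2).smul h1)).contDiffWithinAt
  have hz0 : ∀ z ∈ B, z ∈ K → f z = 0 := fun z hz hzK =>
    huniq z _ _ (hfK z hz) (by rw [zero_smul, sub_zero]; exact ⟨hzK, hBε hz⟩)
  refine ⟨B, f, u, hBo, by simp [hB, hδ], fun z hz => (hR z (hBε hz)).1,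
    ⟨contDiffOn_infty.2 hsm, fun j z hz => ?_⟩, fun z hz => ⟨fun h => ?_, hz0 z hz⟩,
    fun z hz t ht => ?_, fun z hz => (hfK z hz).1, fun z hz => (hR z (hBε hz)).2,
    fun z hz j => ?_⟩
  · rw [dzb, (hder z hz).fderiv]
    simp only [ContinuousLinearMap.coe_restrictScalars', map_smul, smul_eq_mul, ← mul_assoc,
      I_mul_I]
    ring
  · have := (hfK z hz).1
    rwa [h, zero_smul, sub_zero] at this
  · have e : ∀ s : ℂ, z - s • u - p = z - p - s • u := fun s => by abel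
    refine ⟨by rw [e, hπ]; exact hz.1, ?_⟩
    have h1 := hth p hpε _ (hfK z hz)
    have h2 := hlip p hpε _ (hfK z hz)
    rw [e] at h1 h2
    rw [hπ] at h2
    have h3 : l (z - (t * f z) • u - p) • u =
        (1 - t) • (l (z - p) • u) + t • (l (z - p - f z • u) • u) := by
      rw [e]
      simp only [map_sub _ (z - p), map_smul, hlu, smul_eq_mul, mul_one, ← Complex.coe_smul,
        smul_smul, ← add_smul]
      congr 1
      push_cast
      ring
    rw [h3]
    refine (norm_add_le _ _).trans_lt ?_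
    rw [norm_smul (1 - t), norm_smul t, Real.norm_of_nonneg (by linarith [ht.2]),
      Real.norm_of_nonneg ht.1]
    have h4 := hz.1
    have h5 := hz.2
    rcases ht.1.eq_or_lt with h0 | h0
    · rw [← h0]; linarith
    · nlinarith [mul_nonneg (sub_nonneg.2 ht.2) (sub_nonneg.2 h5.le), norm_nonneg (l (z - p) • u)]
  · rw [dz, (hder z hz.1).fderiv, hz0 z hz.1 hz.2, zero_smul, sub_zero]
    simp only [ContinuousLinearMap.coe_restrictScalars', map_smul, smul_eq_mul, ← mul_assoc,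
      I_mul_I, smul_apply, avC_ee]
    ring

end

end Pool.Agent.MP_fcd29e_an.H87
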