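import Pool.Agent.MP_fcd29e_an.H81.Spec

/-! Cauchy estimates. -/

set_option autoImplicit false

namespace Pool.Agent.MP_fcd29e_an.H87

open Pool.Agent.MP_fcd29e_an.H81 MeasureTheory Complex Set Filter Topology Metric
open scoped ContDiff ComplexConjugate ENNReal NNReal

noncomputable section

variable {N : ℕ} {U : Set (E N)} {w : E N → ℂ}

theorem hol_at (hU : IsOpen U) (hw : Hol U w) {z : E N} (hz : z ∈ U) : ContDiffAt ℝ ∞ w z :=
  hw.1.contDiffAt (hU.mem_nhds hz)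

theorem hol_diff (hU : IsOpen U) (hw : Hol U w) : DifferentiableOn ℂ w U := by
  intro z hz
  have h1 := (ContDiffAt.da (hol_at hU hw hz)).hasFDerivAt
  refine (hasFDerivAt_of_restrictScalars ℝ (f' := ∑ j, dz j w z •
    (EuclideanSpace.proj j : E N →L[ℂ] ℂ)) h1 ?_).differentiableAt.differentiableWithinAt
  ext v
  rw [fderiv_eq]
  simp [hw.2 _ z hz, mul_comm]

theorem hol_sq (hU : IsOpen U) (hw : Hol U w) : Hol U fun z => w z * w z := by
  refine ⟨hw.1.mul hw.1, fun j z hz => ?_⟩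
  have h1 := ContDiffAt.da (hol_at hU hw hz)
  rw [dzb_mul j h1 h1, hw.2 j z hz]
  simp

theorem hol_fderiv (hU : IsOpen U) (hw : Hol U w) (v : E N) :
    Hol U fun z => fderiv ℝ w z v := by
  refine ⟨fun z hz => (contDiffAt_fderiv_apply (hol_at hU hw hz) v).contDiffWithinAt,
    fun j z hz => ?_⟩
  rw [← fderiv_dzb j (hol_at hU hw hz)]
  have : dzb j w =ᶠ[𝓝 z] fun _ => 0 := by
    filter_upwards [hU.mem_nhds hz] with y hy using hw.2 j y hy
  rw [this.fderiv_eq]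
  simp

theorem cauchy1 (hU : IsOpen U) (hw : Hol U w) {x : E N} {r S : ℝ} (hr : 0 < r)
    (hx : ball x r ⊆ U) (hS : ∀ y ∈ ball x r, ‖w y‖ ≤ S) : ‖fderiv ℝ w x‖ ≤ 2 * S / r := by
  have hd := (hol_diff hU hw).mono hx
  have h1 := Complex.norm_fderiv_le_div_of_mapsTo_ball (R₂ := 2 * S) hd (fun y hy => by
    rw [mem_closedBall, dist_eq_norm]
    have := hS y hy
    have := hS x (mem_ball_self hr)
    linarith [norm_sub_le (w y) (w x)]) hr
  rwa [(hd.differentiableAt (ball_mem_nhds x hr)).fderiv_restrictScalars ℝ,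
    ContinuousLinearMap.norm_restrictScalars]

theorem cauchy2 (hU : IsOpen U) (hw : Hol U w) {x : E N} {r S : ℝ} (hr : 0 < r)
    (hx : ball x (2 * r) ⊆ U) (hS : ∀ y ∈ ball x (2 * r), ‖w y‖ ≤ S) (i : ℕ) (hi : i ≤ 2) :
    ‖iteratedFDeriv ℝ i w x‖ * r ^ i ≤ 4 * S := by
  have hx0 : x ∈ ball x (2 * r) := mem_ball_self (by positivity)
  have hS0 : 0 ≤ S := (norm_nonneg _).trans (hS x hx0)
  have h1 : ∀ y ∈ ball x r, ‖fderiv ℝ w y‖ ≤ 2 * S / r := by
    intro y hy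
    have hs : ball y r ⊆ ball x (2 * r) := ball_subset_ball' (by
      rw [mem_ball] at hy; linarith)
    exact cauchy1 hU hw hr (hs.trans hx) fun u hu => hS u (hs hu)
  interval_cases i
  · rw [norm_iteratedFDeriv_zero, pow_zero, mul_one]
    linarith [hS x hx0]
  · rw [norm_iteratedFDeriv_one, pow_one, ← le_div_iff₀ hr]
    refine (h1 x (mem_ball_self hr)).trans ?_
    gcongr
    norm_num
  · rw [← norm_iteratedFDeriv_fderiv, norm_iteratedFDeriv_one, ← le_div_iff₀ (by positivity)]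
    have hd : DifferentiableAt ℝ (fderiv ℝ w) x :=
      ((hol_at hU hw (hx hx0)).fderiv_right (m := ∞) le_rfl).differentiableAt (by simp)
    refine ContinuousLinearMap.opNorm_le_bound _ (by positivity) fun u => ?_
    refine ContinuousLinearMap.opNorm_le_bound _ (by positivity) fun v => ?_
    have h2 := cauchy1 hU (hol_fderiv hU hw v) (S := 2 * S / r * ‖v‖) hr
      ((ball_subset_ball (by linarith)).trans hx) fun y hy =>
        (ContinuousLinearMap.le_opNorm _ _).trans (by gcongr; exact h1 y hy)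
    have h3 : fderiv ℝ (fun z => fderiv ℝ w z v) x u = fderiv ℝ (fderiv ℝ w) x u v := by
      rw [fderiv_clm_apply hd (differentiableAt_const v)]
      simp
    rw [← h3]
    refine (ContinuousLinearMap.le_opNorm _ _).trans ?_
    calc _ ≤ 2 * (2 * S / r * ‖v‖) / r * ‖u‖ := by gcongr
      _ = _ := by field_simp; ring

theorem mean (L : Lv0) (hN : 1 ≤ N) : ∃ M : ℝ, 0 < M ∧ ∀ (U : Set (E N)) (w : E N → ℂ) (x : E N)
    (r : ℝ), IsOpen U → Hol U w → 0 < r → closedBall x (2 * r) ⊆ U →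
      ENNReal.ofReal (‖w x‖ ^ 2 * r ^ (2 * N)) ≤
        ENNReal.ofReal M * ∫⁻ y in ball x (2 * r), ENNReal.ofReal (‖w y‖ ^ 2) := by
  obtain ⟨-, hk, he, -⟩ := L.bm1 N hN
  obtain ⟨⟨h1, h2⟩, -⟩ := he 1 one_pos
  obtain ⟨M, hM⟩ := h1.continuous.bounded_above_of_compact_support h2
  have hM0 : 0 ≤ M := (norm_nonneg _).trans (hM 0)
  refine ⟨M + 1, by linarith, fun U w x r hU hw hr hx => ?_⟩
  have hs := hol_sq hU hw
  have h3 := (L.bm2 N hN).2.1 U _ x r hU hs.1 hr hx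
  have h4 : ∑ j, ∫ y, kk j r (x - y) * dzb j (fun z => w z * w z) y = 0 := by
    refine Finset.sum_eq_zero fun j _ => ?_
    have : ∀ y, kk j r (x - y) * dzb j (fun z => w z * w z) y = 0 := by
      intro y
      by_cases hy : 2 * r ≤ ‖x - y‖
      · rw [((((hk j).2.2.2.2.2 r hr).2.2 _).2.1 hy).2, zero_mul]
      · rw [hs.2 j y (hx (by rw [mem_closedBall', dist_eq_norm]; linarith)), mul_zero]
    simp [this]
  rw [h4, add_zero] at h3
  have hp : 0 < r ^ (2 * N) := by positivity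
  have h5 : ENNReal.ofReal (‖w x‖ ^ 2) ≤ ∫⁻ y, (ball x (2 * r)).indicator
      (fun y => ENNReal.ofReal ((M + 1) / r ^ (2 * N)) * ENNReal.ofReal (‖w y‖ ^ 2)) y := by
    have : ‖w x‖ ^ 2 = ‖Mo r (fun z => w z * w z) x‖ := by rw [← h3, norm_mul, sq]
    rw [this, ofReal_norm]
    refine (enorm_integral_le_lintegral_enorm _).trans (lintegral_mono fun y => ?_)
    by_cases hy : y ∈ ball x (2 * r)
    · rw [indicator_of_mem hy, ← ofReal_norm, ← ENNReal.ofReal_mul (by positivity)]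
      refine ENNReal.ofReal_le_ofReal ?_
      rw [norm_mul, norm_mul, ← sq, ((he r hr).2.2 _).2.2.2.2, norm_div, Complex.norm_real,
        Real.norm_of_nonneg hp.le]
      gcongr
      linarith [hM (r⁻¹ • (x - y))]
    · rw [mem_ball', dist_eq_norm, not_lt] at hy
      rw [((he r hr).2.2 _).2.2.1 hy]
      simp
  rw [lintegral_indicator measurableSet_ball, lintegral_const_mul' _ _ ENNReal.ofReal_ne_top] at h5
  rw [ENNReal.ofReal_mul (by positivity)]
  calc _ ≤ (ENNReal.ofReal ((M + 1) / r ^ (2 * N)) *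
        ∫⁻ y in ball x (2 * r), ENNReal.ofReal (‖w y‖ ^ 2)) * ENNReal.ofReal (r ^ (2 * N)) := by
        gcongr
    _ = _ := by
      rw [mul_right_comm, ← ENNReal.ofReal_mul (by positivity), div_mul_cancel₀ _ hp.ne']

theorem cauchy (L : Lv0) (hN : 1 ≤ N) : ∃ C : ℝ≥0, ∀ (U : Set (E N)) (w : E N → ℂ) (x : E N)
    (r : ℝ), IsOpen U → Hol U w → 0 < r → closedBall x (3 * r) ⊆ U → ∀ i ≤ 2,
      ENNReal.ofReal (‖iteratedFDeriv ℝ i w x‖ ^ 2 * r ^ (2 * i + 2 * N)) ≤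
        C * ∫⁻ y in ball x (3 * r), ENNReal.ofReal (‖w y‖ ^ 2) := by
  obtain ⟨M, hM, h⟩ := mean L hN
  have hC : 0 < 16 * (M * 2 ^ (2 * N)) := by positivity
  refine ⟨(16 * (M * 2 ^ (2 * N))).toNNReal, fun U w x r hU hw hr hx i hi => ?_⟩
  change _ ≤ ENNReal.ofReal (16 * (M * 2 ^ (2 * N))) * _
  generalize hI : ∫⁻ y in ball x (3 * r), ENNReal.ofReal (‖w y‖ ^ 2) = J
  by_cases hJ : J = ⊤
  · rw [hJ, ENNReal.mul_top (by simpa using hC)]
    exact le_top
  lift J to ℝ≥0 using hJ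
  have hp : 0 < r ^ (2 * N) := by positivity
  have h1 : ∀ y ∈ ball x (2 * r), ‖w y‖ ≤ √(M * 2 ^ (2 * N) * J / r ^ (2 * N)) := by
    intro y hy
    rw [mem_ball] at hy
    have h2 := h U w y (r / 2) hU hw (by positivity)
      ((closedBall_subset_closedBall' (by linarith)).trans hx)
    have h3 : ∫⁻ u in ball y (2 * (r / 2)), ENNReal.ofReal (‖w u‖ ^ 2) ≤ J :=
      hI ▸ lintegral_mono_set (ball_subset_ball' (by linarith))
    have h4 := h2.trans (mul_le_mul_right h3 _)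
    rw [← ENNReal.ofReal_coe_nnreal, ← ENNReal.ofReal_mul hM.le,
      ENNReal.ofReal_le_ofReal_iff (by positivity), div_pow, ← mul_div_assoc,
      div_le_iff₀ (by positivity)] at h4
    refine Real.le_sqrt_of_sq_le ?_
    rw [le_div_iff₀ hp]
    linarith
  have h2 := cauchy2 hU hw hr ((ball_subset_closedBall.trans
    (closedBall_subset_closedBall (by linarith))).trans hx) h1 i hi
  rw [← ENNReal.ofReal_coe_nnreal, ← ENNReal.ofReal_mul hC.le]
  refine ENNReal.ofReal_le_ofReal ?_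
  have h3 := pow_le_pow_left₀ (by positivity) h2 2
  rw [mul_pow 4, Real.sq_sqrt (by positivity)] at h3
  calc _ = (‖iteratedFDeriv ℝ i w x‖ * r ^ i) ^ 2 * r ^ (2 * N) := by ring
    _ ≤ 4 ^ 2 * (M * 2 ^ (2 * N) * J / r ^ (2 * N)) * r ^ (2 * N) := by gcongr
    _ = _ := by field_simp; ring

theorem temp_zero (ρ : E N → ℝ) (hw : ContDiffOn ℝ ∞ w (E0 N)) : Temp ρ 0 w := by
  refine ⟨hw.mono fun z hz => hz.1, fun K hK h0 => ?_⟩
  have h : ∀ i : ℕ, ∃ C : ℝ, ∀ z ∈ K, ‖iteratedFDeriv ℝ i w z‖ ≤ C := fun i =>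
    hK.exists_bound_of_continuousOn fun z hz =>
      ((hw.contDiffAt (isOpen_E0.mem_nhds fun e => h0 (mem_singleton_iff.1 e ▸ hz))
        ).continuousAt_iteratedFDeriv (by exact_mod_cast le_top)).continuousWithinAt
  choose C hC using h
  refine ⟨∑ i ∈ Finset.range 3, |C i|, fun z hz i hi => ?_⟩
  rw [pow_zero, div_one]
  exact ((hC i z hz.2).trans (le_abs_self _)).trans (Finset.single_le_sum
    (f := fun i => |C i|) (fun _ _ => abs_nonneg _) (Finset.mem_range.2 (by omega)))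

theorem temp_hol (L : Lv0) (hN : 1 ≤ N) (ρ : E N → ℝ) (hρ : Dom ρ) (k : ℕ) (hw : Hol (Op ρ) w)
    (h2 : L2 (Op ρ) fun z => (ρ z : ℂ) ^ k * w z) : Temp ρ (k + N + 2) w := by
  refine ⟨hw.1, fun K hK h0 => ?_⟩
  obtain ⟨-, hO, -, -, -, ⟨B, hB⟩, ⟨L₀, hL₀, hL⟩, -⟩ := L.c1 N ρ hρ
  obtain ⟨C, hC⟩ := cauchy L hN
  have hB0 : 0 ≤ B := (abs_nonneg _).trans (hB 0)
  obtain ⟨a, ha, haK⟩ : ∃ a > 0, ∀ z ∈ K, a ≤ ‖z‖ := by
    obtain ⟨a, ha, h⟩ := Metric.isOpen_iff.1 hK.isClosed.isOpen_compl 0 h0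
    exact ⟨a, ha, fun z hz => not_lt.1 fun hlt => h (mem_ball_zero_iff.2 hlt) hz⟩
  obtain ⟨b, hbK⟩ := hK.isBounded.exists_norm_le
  have hK' : IsCompact (closedBall (0 : E N) (2 * b) \ ball 0 (a / 2)) :=
    (isCompact_closedBall _ _).diff isOpen_ball
  have h3 := h2 _ hK' fun h => h.2 (mem_ball_self (by positivity))
  have h4 : ∫⁻ y in Op ρ ∩ (closedBall (0 : E N) (2 * b) \ ball 0 (a / 2)),
      ENNReal.ofReal (‖(ρ y : ℂ) ^ k * w y‖ ^ 2) ≠ ⊤ := by
    have := (memLp_two_iff_integrable_sq_norm h3.1).1 h3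
    exact ((hasFiniteIntegral_iff_ofReal (ae_of_all _ fun y => by positivity)).1 this.2).ne
  generalize hI : ∫⁻ y in Op ρ ∩ (closedBall (0 : E N) (2 * b) \ ball 0 (a / 2)),
      ENNReal.ofReal (‖(ρ y : ℂ) ^ k * w y‖ ^ 2) = J at h4
  lift J to ℝ≥0 using h4
  obtain ⟨c, hc, hc1, hc2⟩ : ∃ c > 0, 6 * c * B ≤ a ∧ 6 * c * L₀ ≤ a := by
    have hs : 0 < L₀ + B := by linarith
    have e : 6 * (a / (6 * (L₀ + B))) * (L₀ + B) = a := by field_simp
    have : 0 < a / (6 * (L₀ + B)) := by positivity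
    exact ⟨_, this, by nlinarith, by nlinarith⟩
  have h : ∀ i ≤ 2, ∀ z ∈ Op ρ ∩ K, ‖iteratedFDeriv ℝ i w z‖ * ρ z ^ (k + N + 2) ≤
      √(C * J) * 2 ^ k / c ^ (i + N) * B ^ (2 - i) := by
    intro i hi z hz
    have hz0 : 0 < ρ z := hz.1.2
    have hza := haK z hz.2
    have hzb := hbK z hz.2
    have hzB : ρ z ≤ B := (le_abs_self _).trans (hB z)
    have hn : 0 < ‖z‖ := by linarith
    have h5 : ∀ y ∈ closedBall z (3 * (c * ρ z)),
        y ∈ Op ρ ∩ (closedBall (0 : E N) (2 * b) \ ball 0 (a / 2)) ∧ ρ z / 2 ≤ ρ y := by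
      intro y hy
      rw [mem_closedBall, dist_eq_norm] at hy
      have h6 : ‖y - z‖ ≤ a / 2 := by nlinarith
      have h7 := hL z y hz.1.1 (by linarith)
      have h8 : L₀ * ‖y - z‖ / ‖z‖ ≤ ρ z / 2 := by
        rw [div_le_iff₀ hn]
        calc L₀ * ‖y - z‖ ≤ L₀ * (3 * (c * ρ z)) := by gcongr
          _ = ρ z / 2 * (6 * c * L₀) := by ring
          _ ≤ ρ z / 2 * ‖z‖ := by gcongr; linarith
      have h9 := (abs_le.1 (h7.trans h8)).1
      have h10 := norm_sub_norm_le y z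
      have h11 := norm_sub_norm_le z y
      rw [norm_sub_rev] at h11
      refine ⟨⟨⟨norm_pos_iff.1 (by linarith), by linarith⟩, ?_, ?_⟩, by linarith⟩
      · rw [mem_closedBall_zero_iff]; linarith
      · rw [mem_ball_zero_iff]; linarith
    have h6 := hC _ w z (c * ρ z) hO hw (by positivity) (fun y hy => (h5 y hy).1.1) i hi
    have h7 : ∫⁻ y in ball z (3 * (c * ρ z)), ENNReal.ofReal (‖w y‖ ^ 2) ≤
        ENNReal.ofReal ((2 / ρ z) ^ (2 * k)) * J := by
      rw [← hI, ← lintegral_const_mul' _ _ ENNReal.ofReal_ne_top]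
      refine le_trans ?_ (lintegral_mono_set fun y hy => (h5 y (ball_subset_closedBall hy)).1)
      refine setLIntegral_mono' measurableSet_ball fun y hy => ?_
      rw [← ENNReal.ofReal_mul (by positivity)]
      refine ENNReal.ofReal_le_ofReal ?_
      have h8 := (h5 y (ball_subset_closedBall hy)).2
      have h9 : 1 ≤ 2 / ρ z * ρ y := by
        rw [div_mul_eq_mul_div, le_div_iff₀ hz0]; linarith
      rw [norm_mul, norm_pow, Complex.norm_real, Real.norm_of_nonneg (by linarith)]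
      calc ‖w y‖ ^ 2 = 1 * ‖w y‖ ^ 2 := (one_mul _).symm
        _ ≤ (2 / ρ z * ρ y) ^ (2 * k) * ‖w y‖ ^ 2 := by gcongr; exact one_le_pow₀ h9
        _ = _ := by ring
    have h8 := h6.trans (mul_le_mul_right h7 _)
    rw [← ENNReal.ofReal_coe_nnreal, ← ENNReal.ofReal_coe_nnreal (p := J),
      ← ENNReal.ofReal_mul (by positivity), ← ENNReal.ofReal_mul (by positivity),
      ENNReal.ofReal_le_ofReal_iff (by positivity)] at h8
    have h9 : ‖iteratedFDeriv ℝ i w z‖ * (c * ρ z) ^ (i + N) * (ρ z / 2) ^ k ≤ √(C * J) := by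
      refine Real.le_sqrt_of_sq_le ?_
      calc _ = ‖iteratedFDeriv ℝ i w z‖ ^ 2 * (c * ρ z) ^ (2 * i + 2 * N) * (ρ z / 2) ^ (2 * k) := by
            ring
        _ ≤ C * ((2 / ρ z) ^ (2 * k) * J) * (ρ z / 2) ^ (2 * k) := by gcongr
        _ = C * J * (2 / ρ z * (ρ z / 2)) ^ (2 * k) := by rw [mul_pow]; ring
        _ = _ := by rw [show 2 / ρ z * (ρ z / 2) = 1 by field_simp, one_pow, mul_one]
    have e : k + N + 2 = k + (i + N) + (2 - i) := by omega
    calc _ = ‖iteratedFDeriv ℝ i w z‖ * (c * ρ z) ^ (i + N) * (ρ z / 2) ^ k * 2 ^ k / c ^ (i + N) *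
          ρ z ^ (2 - i) := by
          rw [e, pow_add (ρ z) (k + _), pow_add (ρ z) k, mul_pow, div_pow]; field_simp
      _ ≤ _ := by gcongr
  refine ⟨∑ i ∈ Finset.range 3, √(C * J) * 2 ^ k / c ^ (i + N) * B ^ (2 - i),
    fun z hz i hi => ?_⟩
  rw [le_div_iff₀ (pow_pos hz.1.2 _)]
  exact (h i hi z hz).trans (Finset.single_le_sum
    (f := fun i => √(C * J) * 2 ^ k / c ^ (i + N) * B ^ (2 - i)) (fun _ _ => by positivity)
    (Finset.mem_range.2 (by omega)))

theorem w2 (L : Lv0) : StmtW2 := fun _ hN =>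
  ⟨fun _ _ => hol_diff, cauchy L hN, fun ρ hρ =>
    ⟨fun k _ => temp_hol L hN ρ hρ k, fun _ => temp_zero ρ⟩⟩

end

end Pool.Agent.MP_fcd29e_an.H87
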